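import Pool.Agent.Lib.MP_35e7b7_an.Final
import Pool.Agent.Lib.MP_35e7b7_an.CW
import Pool.Agent.Lib.MP_35e7b7_an.PL
import Pool.Agent.Lib.MP_35e7b7_an.Limit3

open MP_35e7b7_an

namespace Pool.Agent.Results.MP_35e7b7_an.TwoSharedLimitValues

/-- If two distinct finite values are shared limit values of a transcendental meromorphic
function and its derivative, then every value of the sphere is. -/
theorem result (F : ℂ → OnePoint ℂ) (hF : IsMero F) (htr : ¬ IsRational F) (a b : ℂ)
    (hab : a ≠ b) (ha : SharedLimitValue F (mderiv F) (a : OnePoint ℂ))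
    (hb : SharedLimitValue F (mderiv F) (b : OnePoint ℂ)) (c : OnePoint ℂ) :
    SharedLimitValue F (mderiv F) c := by
  refine final PL_main ?_ (fun F hF hFr b ε hε R => cw_main hF hFr b hε R) hF htr hab ha hb c
  intro g P a b hg hab hb0 h1 h2 h3 h4
  exact E_main hg hab hb0 h1 h2 h3 h4

end Pool.Agent.Results.MP_35e7b7_an.TwoSharedLimitValues
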